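import Mathlib
import Pool.Agent.L5helper5.PM.Mult
import Pool.Agent.L5helper5.PM.SZ

/-!
# MP_a57f33_nt: for almost all tuples of indices there are no relations of bounded degree and height between the motivic
# multiple zeta values

There are `2 ^ (k - 2)` admissible indices of weight `k ≥ 2`. Theorem: let `k_1, ..., k_r ≥ 2`. For all but a proportion of
`(2 H + 1) ^ ((D + 1) ^ r) D ∑ 2 / √(k_i - 1)` of the tuples `(u_1, ..., u_r)` of admissible indices of weights `k_1, ..., k_r`,
the values `Y(u_1), ..., Y(u_r)` of a lift `Y` of the real multiple zeta values, for example the motivic ones, satisfy no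
nontrivial polynomial relation of degree at most `D` in each variable with integer coefficients of absolute value at most
`H`. So for almost all tuples of indices of large weight every such relation is a consequence of the regularized double
shuffle relations (there is none), as the question predicts. The indices are arbitrary, without restriction on depth or
entries.

The proof: a multiple zeta value increases when a unit of weight is moved to the next smaller summation variable
(`val_transfer_lt`); so the indices with the same value form antichains in Boolean lattices, and by Sperner's theorem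
at most `2 ^ (k - 2) * 2 / √(k - 1)` indices of weight `k` have the same value. Then a Schwartz–Zippel argument.
-/

set_option autoImplicit false

namespace Pool.Agent.Results.MP_a57f33_nt.AlmostAllIndices

/-- the multiple zeta value of the list `l`, the first entry belongs to the largest summation variable -/
noncomputable def mzv (l : List ℕ) : ℝ :=
  ∑' m : {m : Fin l.length → ℕ // StrictAnti m ∧ ∀ i, 0 < m i}, ∏ i, ((m.1 i : ℝ) ^ (l.get i))⁻¹

/-- admissible indices: the entries are positive and the first entry is at least two -/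
def Admissible (u : List ℕ) : Prop := (∀ x ∈ u, 1 ≤ x) ∧ ∀ a t, u = a :: t → 2 ≤ a

/-- the admissible indices of weight `k` -/
def indices (k : ℕ) : Set (List ℕ) := {u | Admissible u ∧ u.sum = k}

/-- `Y` is a lift of the real multiple zeta values: a homomorphism maps `Y u` to the real number `ζ(u)`, for all admissible
indices `u`; for example the motivic multiple zeta values -/
def Lift {M : Type} [CommRing M] [Algebra ℚ M] (Y : List ℕ → M) : Prop :=
  ∃ per : M →ₐ[ℚ] ℝ, ∀ u, Admissible u → per (Y u) = mzv u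

/-- A nontrivial polynomial relation of degree at most `D` in each variable with integer coefficients of absolute value at
most `H` holds between the values of a lift at the indices `u_i`. -/
def HasRelation {r : ℕ} (D H : ℕ) (u : Fin r → List ℕ) : Prop :=
  ∃ (M : Type) (_ : CommRing M) (_ : Algebra ℚ M) (Y : List ℕ → M), Lift Y ∧
    ∃ P : MvPolynomial (Fin r) ℤ, P ≠ 0 ∧ (∀ i, P.degreeOf i ≤ D) ∧ (∀ m, |P.coeff m| ≤ (H : ℤ)) ∧
      MvPolynomial.aeval (fun i => Y (u i)) P = 0

lemma mzv_eq {l : List ℕ} (hl : Admissible l) : mzv l = Pool.Agent.H447R2.MZ.val l := by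
  have h1 := Pool.Agent.H447R2.MZ.hasSum_val l.length l.get (by rw [List.ofFn_get]; exact hl)
  rw [List.ofFn_get] at h1
  exact h1.tsum_eq

lemma mem_indices {k : ℕ} (hk : 2 ≤ k) (u : List ℕ) : u ∈ indices k ↔ u ∈ Pool.Agent.L5helper5.PM.AI k :=
  (Pool.Agent.L5helper5.PM.mem_AI hk u).symm

lemma indices_eq {k : ℕ} (hk : 2 ≤ k) : indices k = (Pool.Agent.L5helper5.PM.AI k : Set (List ℕ)) := by
  ext u
  rw [mem_indices hk, Finset.mem_coe]

/-- **Theorem.** -/
theorem result :
    -- the number of the admissible indices of weight `k`, and of those with a given value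
    (∀ k : ℕ, 2 ≤ k → (indices k).Finite ∧ (indices k).ncard = 2 ^ (k - 2) ∧
      ∀ x : ℝ, ({u ∈ indices k | mzv u = x}.ncard : ℝ) ≤ 2 / √((k : ℝ) - 1) * 2 ^ (k - 2)) ∧
    -- zeros of finitely many real polynomials
    (∀ (r D : ℕ) (k : Fin r → ℕ), (∀ i, 2 ≤ k i) → ∀ S : Finset (MvPolynomial (Fin r) ℝ),
      (∀ P ∈ S, P ≠ 0 ∧ ∀ i, P.degreeOf i ≤ D) →
      ({u : Fin r → List ℕ | (∀ i, u i ∈ indices (k i)) ∧
          ∃ P ∈ S, MvPolynomial.eval (fun i => mzv (u i)) P = 0}.ncard : ℝ) ≤
        S.card * (D * (∑ i, 2 / √((k i : ℝ) - 1)) * ∏ i, 2 ^ (k i - 2))) ∧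
    -- relations between motivic multiple zeta values
    (∀ (r D H : ℕ) (k : Fin r → ℕ), (∀ i, 2 ≤ k i) →
      ({u : Fin r → List ℕ | (∀ i, u i ∈ indices (k i)) ∧ HasRelation D H u}.ncard : ℝ) ≤
        (2 * H + 1) ^ (D + 1) ^ r * (D * (∑ i, 2 / √((k i : ℝ) - 1)) * ∏ i, 2 ^ (k i - 2))) := by
  classical
  have hmain : ∀ (r D : ℕ) (k : Fin r → ℕ), (∀ i, 2 ≤ k i) → ∀ S : Finset (MvPolynomial (Fin r) ℝ),
      (∀ P ∈ S, P ≠ 0 ∧ ∀ i, P.degreeOf i ≤ D) →
      ∀ B : Finset (Fin r → List ℕ), (∀ u ∈ B, (∀ i, u i ∈ indices (k i)) ∧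
          ∃ P ∈ S, MvPolynomial.eval (fun i => mzv (u i)) P = 0) →
        (B.card : ℝ) ≤ S.card * (D * (∑ i, 2 / √((k i : ℝ) - 1)) * ∏ i, 2 ^ (k i - 2)) := by
    intro r D k hk S hS B hB
    have h1 := Pool.Agent.L5helper5.PM.sz_many Pool.Agent.H447R2.MZ.val D
      (fun i => Pool.Agent.L5helper5.PM.AI (k i)) (fun i => 2 / √((k i : ℝ) - 1)) (fun i => by positivity)
      (fun i x => Pool.Agent.L5helper5.PM.fewAI (hk i) x) S hS B (fun u hu => by
        obtain ⟨h2, P, h3, h4⟩ := hB u hu
        refine ⟨fun i => (mem_indices (hk i) _).1 (h2 i), P, h3, ?_⟩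
        rw [← h4]
        congr 2
        funext i
        exact (mzv_eq (h2 i).1).symm)
    simp only [Pool.Agent.L5helper5.PM.card_AI] at h1
    push_cast at h1
    exact h1
  have hfin : ∀ (r : ℕ) (k : Fin r → ℕ), (∀ i, 2 ≤ k i) → ∀ p : (Fin r → List ℕ) → Prop,
      {u : Fin r → List ℕ | (∀ i, u i ∈ indices (k i)) ∧ p u}.Finite := by
    intro r k hk p
    refine (Set.Finite.pi' (t := fun i : Fin r => indices (k i)) fun i => ?_).subset fun u hu => hu.1
    rw [indices_eq (hk i)]
    exact Finset.finite_toSet _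
  refine ⟨fun k hk => ?_, fun r D k hk S hS => ?_, fun r D H k hk => ?_⟩
  · have h1 := indices_eq hk
    refine ⟨by rw [h1]; exact Finset.finite_toSet _, by rw [h1, Set.ncard_coe_finset, Pool.Agent.L5helper5.PM.card_AI], fun x => ?_⟩
    have h2 : {u ∈ indices k | mzv u = x} =
        ((Pool.Agent.L5helper5.PM.AI k).filter fun u => Pool.Agent.H447R2.MZ.val u = x : Set (List ℕ)) := by
      ext u
      simp only [Set.mem_ofPred_eq, Finset.coe_filter]
      constructor
      · rintro ⟨h3, h4⟩
        exact ⟨(mem_indices hk u).1 h3, by rw [← mzv_eq h3.1]; exact h4⟩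
      · rintro ⟨h3, h4⟩
        have h5 := (mem_indices hk u).2 h3
        exact ⟨h5, by rw [mzv_eq h5.1]; exact h4⟩
    rw [h2, Set.ncard_coe_finset]
    have h3 := Pool.Agent.L5helper5.PM.fewAI hk x
    rw [Pool.Agent.L5helper5.PM.card_AI] at h3
    push_cast at h3
    exact h3
  · rw [Set.ncard_eq_toFinset_card _ (hfin r k hk _)]
    refine hmain r D k hk S hS _ fun u hu => ?_
    rw [Set.Finite.mem_toFinset] at hu
    exact hu
  · rw [Set.ncard_eq_toFinset_card _ (hfin r k hk _)]
    set PR : Finset (MvPolynomial (Fin r) ℝ) :=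
      ((Pool.Agent.L5helper5.PM.PS r D H).filter fun P => P ≠ 0 ∧ ∀ i, P.degreeOf i ≤ D).image
        (MvPolynomial.map (Int.castRingHom ℝ)) with hPR
    have hPRc : (PR.card : ℝ) ≤ (2 * H + 1) ^ (D + 1) ^ r := by
      have h1 : PR.card ≤ (2 * H + 1) ^ (D + 1) ^ r :=
        (Finset.card_image_le.trans (Finset.card_filter_le _ _)).trans (Pool.Agent.L5helper5.PM.card_PS r D H)
      exact_mod_cast h1
    have hinj : Function.Injective (MvPolynomial.map (σ := Fin r) (Int.castRingHom ℝ)) :=
      MvPolynomial.map_injective _ (Int.cast_injective)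
    have h2 := hmain r D k hk PR (fun P hP => by
      rw [hPR, Finset.mem_image] at hP
      obtain ⟨Q, hQ, rfl⟩ := hP
      rw [Finset.mem_filter] at hQ
      refine ⟨fun h => hQ.2.1 (hinj (by rw [h, map_zero])), fun i => ?_⟩
      rw [MvPolynomial.degreeOf_le_iff]
      intro m hm
      exact MvPolynomial.degreeOf_le_iff.1 (hQ.2.2 i) m (MvPolynomial.support_map_subset _ _ hm)) (hfin r k hk (HasRelation D H)).toFinset (fun u hu => by
      rw [Set.Finite.mem_toFinset] at hu
      obtain ⟨h3, M, i1, i2, Y, ⟨per, hper⟩, P, hP0, hPD, hPH, hP⟩ := hu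
      refine ⟨h3, MvPolynomial.map (Int.castRingHom ℝ) P, ?_, ?_⟩
      · rw [hPR, Finset.mem_image]
        exact ⟨P, by rw [Finset.mem_filter]; exact ⟨Pool.Agent.L5helper5.PM.mem_PS P hPD hPH, hP0, hPD⟩, rfl⟩
      · have h5 : MvPolynomial.aeval (fun i => per (Y (u i))) P = per (MvPolynomial.aeval (fun i => Y (u i)) P) := by
          have h6 := MvPolynomial.map_aeval (fun i => Y (u i)) per.toRingHom P
          rw [MvPolynomial.aeval_eq_eval₂Hom]
          have h7 : (algebraMap ℤ ℝ) = per.toRingHom.comp (algebraMap ℤ M) := RingHom.ext_int _ _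
          rw [h7]
          exact h6.symm
        rw [hP, map_zero] at h5
        rw [MvPolynomial.eval_map, ← h5]
        have h8 : (fun i => mzv (u i)) = fun i => per (Y (u i)) := by
          funext i
          exact (hper _ (h3 i).1).symm
        rw [h8, MvPolynomial.aeval_def]
        rfl)
    refine h2.trans (mul_le_mul_of_nonneg_right hPRc ?_)
    have h9 : ∀ i, (0 : ℝ) ≤ 2 / √((k i : ℝ) - 1) := fun i => by positivity
    have h10 : (0 : ℝ) ≤ ∑ i, 2 / √((k i : ℝ) - 1) := Finset.sum_nonneg fun i _ => h9 i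
    positivity

end Pool.Agent.Results.MP_a57f33_nt.AlmostAllIndices
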