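import Mathlib
import Pool.Agent.L5helper30.CX.Main

/-!
# MP_a57f33_nt: multiple zeta values with a common last part have no relations of small height

Let `U` be any finite set of admissible indices (the entries are positive, the first is at least two; ones are allowed), and
let `b q` be a nonempty index in positive integers. We consider the numbers `ζ(u b q)`, `u ∈ U`, where `u b q` is the
concatenation, so that `b q` belongs to the smallest summation variables.

**Theorem.** There are `κ > 0` and `J`, which depend only on `U`, such that for all `b ≥ 1` (`b ≥ 2` if the empty index is in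
`U`), all `m ≥ 0`, all `q = 1 ... 1 q'` (`m` ones followed by any index `q'` in positive integers) and all integers `c_u`,
`u ∈ U`, not all zero, with `|c_u| ≤ κ max (1 + length q, exp (κ m / b))`:

  `|∑ c_u ζ(u b q)| ≥ κ ζ(b + J, q) > 0`.

So there is no linear relation of this height between the numbers `ζ(u b q)`, and therefore none between their lifts (for
example the motivic multiple zeta values): all relations of this kind are consequences of the regularized double shuffle
relations (there is none).

Proof. `ζ(u b q)` is the sum over `n` of the tail `T u n` of the multiple zeta series of `u` with the nonnegative weight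
`H q n / (n + 1) ^ b`, where `H q n` is the truncated series of `q`, which vanishes for `n < length q`. The tails have
asymptotic expansions in the inverse rising factorials and the harmonic sums (`hasExp`); the coefficient sequences of
different indices are linearly independent, because the tails are linearly independent over the rational functions in the
ring of sequences of polynomial growth modulo rapidly decreasing sequences. So a linear form in the tails with integer
coefficients of absolute value at most `h` has a constant sign and is at least `κ n ^ (-J)` for all `n ≥ h / κ` (`sign1`).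
This gives the height `κ (1 + length q)`. If `q` begins with `m` ones, then the weights of the `n < N` are negligible for
all `N ≤ κ exp (κ m / b)`, because `H q (n ^ 2 + 2 n) ≥ (3 / 2) ^ m H q n` (`ones_ratio`, `ones_tail`). This gives the height
`κ exp (κ m / b)`.
-/

set_option autoImplicit false

namespace Pool.Agent.Results.MP_a57f33_nt.CommonSuffixes

/-- the multiple zeta value of the list `l`, the first entry belongs to the largest summation variable -/
noncomputable def mzv (l : List ℕ) : ℝ :=
  ∑' m : {m : Fin l.length → ℕ // StrictAnti m ∧ ∀ i, 0 < m i}, ∏ i, ((m.1 i : ℝ) ^ (l.get i))⁻¹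

/-- admissible indices: the entries are positive and the first entry is at least two (the empty index is admissible) -/
def Admissible (u : List ℕ) : Prop := (∀ x ∈ u, 1 ≤ x) ∧ ∀ a t, u = a :: t → 2 ≤ a

/-- `Y` is a lift of the real multiple zeta values to a vector space over `ℚ`: a linear map sends `Y u` to the real number
`ζ(u)`, for all admissible indices `u`; for example the motivic multiple zeta values with the period map -/
def Lift {M : Type} [AddCommGroup M] [Module ℚ M] (Y : List ℕ → M) : Prop :=
  ∃ per : M →ₗ[ℚ] ℝ, ∀ u, Admissible u → per (Y u) = mzv u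

lemma mzv_eq {l : List ℕ} (hl : Admissible l) : mzv l = Pool.Agent.H447R2.MZ.val l := by
  have h1 := Pool.Agent.H447R2.MZ.hasSum_val l.length l.get (by rw [List.ofFn_get]; exact hl)
  rw [List.ofFn_get] at h1
  exact h1.tsum_eq

lemma adm {u : List ℕ} (hu : Admissible u) {b : ℕ} (hb : 1 ≤ b) {q : List ℕ} (hq : ∀ x ∈ q, 1 ≤ x)
    (h0 : u = [] → 2 ≤ b) : Admissible (u ++ b :: q) := by
  refine ⟨fun a ha => ?_, fun a t h => ?_⟩
  · rcases List.mem_append.1 ha with h | h
    · exact hu.1 a h
    · rcases List.mem_cons.1 h with rfl | h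
      · exact hb
      · exact hq a h
  · cases u with
    | nil =>
      rw [List.nil_append] at h
      rw [← (List.cons.inj h).1]
      exact h0 rfl
    | cons s v =>
      rw [List.cons_append] at h
      rw [← (List.cons.inj h).1]
      exact hu.2 s v rfl

/-- **Theorem.** For every finite set `U` of admissible indices there are `κ > 0` and `J` such that for all `b ≥ 1` (`b ≥ 2`
if the empty index is in `U`), all `m`, all indices `q'` in positive integers, `q = 1 ... 1 q'` (`m` ones), and all integers
`c_u`, `u ∈ U`, not all zero, with `|c_u| ≤ κ max (1 + length q, exp (κ m / b))`: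
`|∑ c_u ζ(u b q)| ≥ κ ζ(b + J, q) > 0`, and `∑ c_u Y(u b q) ≠ 0` for every lift `Y` of the multiple zeta values, for example
the motivic ones. -/
theorem result (U : Finset (List ℕ)) (hU : ∀ u ∈ U, Admissible u) : ∃ κ : ℝ, 0 < κ ∧ ∃ J : ℕ,
    ∀ (b m : ℕ) (q' : List ℕ), 1 ≤ b → (∀ x ∈ q', 1 ≤ x) → ([] ∈ U → 2 ≤ b) →
    ∀ q : List ℕ, q = List.replicate m 1 ++ q' →
    ∀ c : List ℕ → ℤ, (∃ u ∈ U, c u ≠ 0) →
    (∀ u ∈ U, |(c u : ℝ)| ≤ κ * max (1 + (q.length : ℝ)) (Real.exp (κ * m / b))) →
      0 < mzv ((b + J) :: q) ∧ κ * mzv ((b + J) :: q) ≤ |∑ u ∈ U, (c u : ℝ) * mzv (u ++ b :: q)| ∧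
      ∀ (M : Type) [AddCommGroup M] [Module ℚ M] (Y : List ℕ → M), Lift Y →
        ∑ u ∈ U, (c u : ℚ) • Y (u ++ b :: q) ≠ 0 := by
  classical
  set φ : List ℕ → List ℕ := fun u => (u.map (· - 1)).reverse with hφ
  have hinv : ∀ u ∈ U, (Pool.Agent.L5helper30.CX.up1 (φ u)).reverse = u := by
    intro u hu
    rw [hφ, Pool.Agent.L5helper30.CX.up1]
    simp only [List.map_reverse, List.reverse_reverse, List.map_map]
    conv_rhs => rw [← List.map_id u]
    refine List.map_congr_left fun x hx => ?_
    have := (hU u hu).1 x hx
    simp only [Function.comp, id]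
    omega
  set V := U.image φ with hV
  have hinj : Set.InjOn φ U := by
    intro u hu u' hu' h
    rw [← hinv u hu, ← hinv u' hu', h]
  have hVadm : ∀ v ∈ V, Pool.Agent.H447R2.MZ.Adm (Pool.Agent.L5helper30.CX.up1 v).reverse := by
    intro v hv
    obtain ⟨u, hu, rfl⟩ := Finset.mem_image.1 hv
    rw [hinv u hu]
    exact hU u hu
  obtain ⟨κ, hκ, J, hJ1, h⟩ := Pool.Agent.L5helper30.CX.measure1 V hVadm
  refine ⟨κ, hκ, J, fun b m q' hb hq' hnil q hqd c hne hc => ?_⟩
  have hq : ∀ x ∈ q, 1 ≤ x := by
    intro x hx
    rw [hqd] at hx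
    rcases List.mem_append.1 hx with h | h
    · rw [List.eq_of_mem_replicate h]
    · exact hq' x h
  have hbJ : 2 ≤ b + J := by omega
  have hadmJ : Admissible ((b + J) :: q) := by
    have := adm (u := []) ⟨by simp, by simp⟩ (show 1 ≤ b + J by omega) hq fun _ => hbJ
    simpa using this
  have hpos : 0 < mzv ((b + J) :: q) := by
    rw [mzv_eq hadmJ]
    exact Pool.Agent.L5helper5.CS.val_pos hbJ hq
  have hmain : κ * mzv ((b + J) :: q) ≤ |∑ u ∈ U, (c u : ℝ) * mzv (u ++ b :: q)| := by
    set ψ : List ℕ → List ℕ := fun v => (Pool.Agent.L5helper30.CX.up1 v).reverse with hψ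
    have hψφ : ∀ u ∈ U, ψ (φ u) = u := hinv
    have hnil' : [] ∈ V → 2 ≤ b := by
      intro h0
      obtain ⟨u, hu, hu0⟩ := Finset.mem_image.1 h0
      apply hnil
      have := hψφ u hu
      rw [hu0, hψ] at this
      simp only [Pool.Agent.L5helper30.CX.up1, List.map_nil, List.reverse_nil] at this
      rw [this]
      exact hu
    have h1 := h b m q' hb hq' hnil' (fun v => c (ψ v)) (by
      obtain ⟨u, hu, hcu⟩ := hne
      exact ⟨φ u, Finset.mem_image_of_mem _ hu, by rw [hψφ u hu]; exact hcu⟩) (by
      intro v hv
      obtain ⟨u, hu, rfl⟩ := Finset.mem_image.1 hv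
      rw [hψφ u hu, ← hqd, add_comm (q.length : ℝ) 1]
      exact hc u hu)
    rw [← hqd] at h1
    rw [mzv_eq hadmJ]
    refine h1.trans (le_of_eq ?_)
    congr 1
    rw [hV, Finset.sum_image hinj]
    refine Finset.sum_congr rfl fun u hu => ?_
    have h2 := hψφ u hu
    have h3 : (Pool.Agent.L5helper30.CX.up1 (φ u)).reverse = u := h2
    rw [h2, h3, mzv_eq (adm (hU u hu) hb hq fun h0 => hnil (h0 ▸ hu))]
  refine ⟨hpos, hmain, ?_⟩
  rintro M _ _ Y ⟨per, hper⟩ h0
  have h1 := congrArg per h0
  rw [map_sum, map_zero] at h1
  have h2 : ∑ u ∈ U, (c u : ℝ) * mzv (u ++ b :: q) = 0 := by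
    rw [← h1]
    refine Finset.sum_congr rfl fun u hu => ?_
    rw [map_smul, hper _ (adm (hU u hu) hb hq fun h0 => hnil (h0 ▸ hu)), Rat.smul_def, Rat.cast_intCast]
  rw [h2, abs_zero] at hmain
  have := mul_pos hκ hpos
  linarith

end Pool.Agent.Results.MP_a57f33_nt.CommonSuffixes
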