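import Mathlib
import Pool.Agent.L5helper80.MZ.Idx
import Pool.Agent.L5helper80.MZ.Rel2

/-!
# MP_a57f33_nt: almost all tuples of indices satisfy no polynomial relation of height `e ^ (ε √k)`

There are `2 ^ (k - 2)` admissible indices of weight `k ≥ 2`. We prove, with an absolute constant `K`:

* every interval `[y, e ^ L y]` contains the values `ζ(u)` of at most `K (1 + L) 2 ^ (k - 2) / √k` admissible indices of
  weight `k`;
* let `S` be a finite set of monomials in `r` variables, of arbitrary degrees. For all but a proportion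
  `K |S| ^ 2 (1 + log H) / √k` of the `r`-tuples `(u_1, ..., u_r)` of admissible indices of weights at least `k`, the values
  `Y(u_1), ..., Y(u_r)` of a lift `Y` of the real multiple zeta values (for example the motivic ones) satisfy no nontrivial
  relation with monomials in `S` and integer coefficients of absolute value at most `H`; and the real values of such
  polynomials at `(ζ(u_1), ..., ζ(u_r))` are at least half of each of their monomials;
* every set of `δ 2 ^ (k - 2)` admissible indices of weight `k` contains `δ √k / (K (1 + log H))` indices between whose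
  (motivic) values there is no linear relation of height `H`.

So for fixed `S` (in particular for linear relations, and for all relations of bounded degree) almost all tuples satisfy no
relation of height `exp (ε √k)`, and all relations of this kind are consequences of the regularized double shuffle
relations (there is none).

Proof. An index is a binary word (`cmp`). Exchanging neighbouring letters moves a unit to the next smaller summation variable
`m_{i+1}`, which multiplies `ζ(u)` by the mean value of `m_i / m_{i+1}` with respect to the weights of the series. If the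
first half of the word contains many letters of the kind which increases an entry, then the part of the series with
`m_{i+1} > C k` is at most half of the whole (`far1`), so that the value grows at least by the factor `1 + 1 / (2 C k)`
(`val_move`). Hence exchanging two letters at distance `k / 4` in the second half of the word multiplies the value by at
least `1 + c` (`move_far`). Sperner's theorem in the Boolean lattices of the words with given pairs of such letters gives the
first statement, and if the logarithms of the values of the monomials are separated then the largest term dominates.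
-/

set_option autoImplicit false

namespace Pool.Agent.Results.MP_a57f33_nt.LogSeparation

open Pool.Agent.L5helper80.MZ
open Pool.Agent.L5helper5.PM (AI mem_AI card_AI)

/-- the multiple zeta value of the list `l`, the first entry belongs to the largest summation variable -/
noncomputable def mzv (l : List ℕ) : ℝ :=
  ∑' m : {m : Fin l.length → ℕ // StrictAnti m ∧ ∀ i, 0 < m i}, ∏ i, ((m.1 i : ℝ) ^ (l.get i))⁻¹

/-- admissible indices: the entries are positive and the first entry is at least two -/
def Admissible (u : List ℕ) : Prop := (∀ x ∈ u, 1 ≤ x) ∧ ∀ a t, u = a :: t → 2 ≤ a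

/-- the admissible indices of weight `k` -/
def indices (k : ℕ) : Set (List ℕ) := {u | Admissible u ∧ u.sum = k}

/-- `Y` is a lift of the real multiple zeta values: a homomorphism maps `Y u` to the real number `ζ(u)`, for all admissible
indices `u`; for example the motivic multiple zeta values -/
def Lift {M : Type} [CommRing M] [Algebra ℚ M] (Y : List ℕ → M) : Prop :=
  ∃ per : M →ₐ[ℚ] ℝ, ∀ u, Admissible u → per (Y u) = mzv u

/-- A nontrivial polynomial relation with exponents in `S` and integer coefficients of absolute value at most `H` holds between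
the values of a lift at the indices `u_i`. -/
def HasRelation {r : ℕ} (S : Finset (Fin r →₀ ℕ)) (H : ℕ) (u : Fin r → List ℕ) : Prop :=
  ∃ (M : Type) (_ : CommRing M) (_ : Algebra ℚ M) (Y : List ℕ → M), Lift Y ∧
    ∃ Q : MvPolynomial (Fin r) ℤ, Q ≠ 0 ∧ Q.support ⊆ S ∧ (∀ m, |Q.coeff m| ≤ (H : ℤ)) ∧
      MvPolynomial.aeval (fun i => Y (u i)) Q = 0

/-- Some polynomial with exponents in `S` and integer coefficients of absolute value at most `H` is at `(ζ(u_1), ..., ζ(u_r))`
smaller than half of the value of one of its monomials. -/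
def SmallValue {r : ℕ} (S : Finset (Fin r →₀ ℕ)) (H : ℕ) (u : Fin r → List ℕ) : Prop :=
  ∃ Q : MvPolynomial (Fin r) ℤ, Q.support ⊆ S ∧ (∀ m, |Q.coeff m| ≤ (H : ℤ)) ∧
    ∃ m ∈ Q.support, |MvPolynomial.aeval (fun i => mzv (u i)) Q| < (∏ i, mzv (u i) ^ m i) / 2

lemma mzv_eq {l : List ℕ} (hl : Admissible l) : mzv l = Pool.Agent.H447R2.MZ.val l := by
  have h1 := Pool.Agent.H447R2.MZ.hasSum_val l.length l.get (by rw [List.ofFn_get]; exact hl)
  rw [List.ofFn_get] at h1
  exact h1.tsum_eq

lemma mzv_pos {w : List ℕ} (h : Admissible w) : 0 < mzv w := by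
  rw [mzv_eq h]
  have h1 := H_ge_D w w.length le_rfl
  have h2 := D_pos w
  have h3 := Pool.Agent.H447R2.MZ.H_le_val w h w.length
  have h4 : 0 < Pool.Agent.H447R2.MZ.H w w.length := by
    by_contra h5
    push Not at h5
    nlinarith
  linarith

lemma mem_indices {k : ℕ} (hk : 2 ≤ k) (u : List ℕ) : u ∈ indices k ↔ u ∈ AI k := (mem_AI hk u).symm

lemma indices_eq {k : ℕ} (hk : 2 ≤ k) : indices k = (AI k : Set (List ℕ)) := by
  ext u
  rw [mem_indices hk, Finset.mem_coe]

lemma ncard_indices {k : ℕ} (hk : 2 ≤ k) : (indices k).ncard = 2 ^ (k - 2) := by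
  rw [indices_eq hk, Set.ncard_coe_finset, card_AI]

lemma ball_mzv {k : ℕ} (hk : 2 ≤ k) (x L : ℝ) (hL : 0 ≤ L) :
    (((AI k).filter fun u => x ≤ Real.log (mzv u) ∧ Real.log (mzv u) ≤ x + L).card : ℝ) ≤
      (L / c0 + 1) * (10 / √k * 2 ^ (k - 2)) := by
  have h1 : (AI k).filter (fun u => x ≤ Real.log (mzv u) ∧ Real.log (mzv u) ≤ x + L) =
      (AI k).filter fun u => x ≤ Real.log (Pool.Agent.H447R2.MZ.val u) ∧ Real.log (Pool.Agent.H447R2.MZ.val u) ≤ x + L := by
    refine Finset.filter_congr fun u hu => ?_
    rw [mzv_eq ((mem_indices hk u).2 hu).1]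
  rw [h1]
  exact ballAI hk x L hL

/-- the small ball estimate in the form for relations -/
lemma ball_rel (k κ : ℕ) (hk : 2 ≤ k) (hκ : k ≤ κ) (H : ℕ) (hH : 1 ≤ H) (x : ℝ) :
    (((AI κ).filter fun w => x ≤ Real.log (mzv w) ∧ Real.log (mzv w) ≤ x + 2 * Real.log (4 * H)).card : ℝ) ≤
      (40 / c0 * (1 + Real.log H) / √k) * (AI κ).card := by
  have hH' : (1 : ℝ) ≤ H := by exact_mod_cast hH
  have hlH : 0 ≤ Real.log H := Real.log_nonneg hH'
  have h1 := ball_mzv (hk.trans hκ) x (2 * Real.log (4 * H)) (by
    have := Real.log_nonneg (show (1 : ℝ) ≤ 4 * H by linarith)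
    linarith)
  refine h1.trans ?_
  have hk0 : (0 : ℝ) < k := by exact_mod_cast (by omega : 0 < k)
  have hsk : 0 < √(k : ℝ) := Real.sqrt_pos.2 hk0
  have hs : √(k : ℝ) ≤ √(κ : ℝ) := Real.sqrt_le_sqrt (by exact_mod_cast hκ)
  have hc := c0_pos
  have hc1 := c0_le
  have h2 : Real.log (4 * H) ≤ 1.3863 + Real.log H := by
    rw [Real.log_mul (by norm_num) (by linarith), show (4 : ℝ) = 2 ^ 2 by norm_num, Real.log_pow]
    have := Real.log_two_lt_d9
    push_cast
    linarith
  have h3 : (2 * Real.log (4 * H)) / c0 + 1 ≤ 4 * (1 + Real.log H) / c0 := by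
    rw [div_add_one hc.ne']
    exact div_le_div_of_nonneg_right (by linarith) hc.le
  rw [card_AI]
  push_cast
  calc ((2 * Real.log (4 * H)) / c0 + 1) * (10 / √(κ : ℝ) * 2 ^ (κ - 2))
      ≤ (4 * (1 + Real.log H) / c0) * (10 / √(k : ℝ) * 2 ^ (κ - 2)) := by
        refine mul_le_mul h3 ?_ (by positivity) (by positivity)
        exact mul_le_mul_of_nonneg_right (div_le_div_of_nonneg_left (by norm_num) hsk hs) (by positivity)
    _ = _ := by ring

/-- **Theorem.** -/
theorem result :
    ∃ K : ℝ, 0 < K ∧ ∀ k : ℕ, 2 ≤ k → (indices k).Finite ∧ (indices k).ncard = 2 ^ (k - 2) ∧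
      -- few values in an interval
      (∀ y L : ℝ, 0 < y → 0 ≤ L →
        ({u ∈ indices k | y ≤ mzv u ∧ mzv u ≤ Real.exp L * y}.ncard : ℝ) ≤ K * (1 + L) * 2 ^ (k - 2) / √k) ∧
      ∀ H : ℕ, 1 ≤ H →
        -- relations in tuples
        (∀ (r : ℕ) (κ : Fin r → ℕ), (∀ i, k ≤ κ i) → ∀ S : Finset (Fin r →₀ ℕ),
          ({u : Fin r → List ℕ | (∀ i, u i ∈ indices (κ i)) ∧ (HasRelation S H u ∨ SmallValue S H u)}.ncard : ℝ) ≤
            K * S.card ^ 2 * (1 + Real.log H) / √k * ∏ i, 2 ^ (κ i - 2)) ∧
        -- linear relations in dense families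
        ∀ F ⊆ indices k, ∃ G : Finset (List ℕ), (G : Set (List ℕ)) ⊆ F ∧
          √k * F.ncard ≤ K * (1 + Real.log H) * 2 ^ (k - 2) * G.card ∧
          ∀ c : List ℕ → ℤ, (∀ v ∈ G, |c v| ≤ H) →
            (∀ w ∈ G, c w ≠ 0 → mzv w / 2 ≤ |∑ v ∈ G, (c v : ℝ) * mzv v|) ∧
            ∀ (M : Type) [CommRing M] [Algebra ℚ M] (Y : List ℕ → M), Lift Y →
              ∑ v ∈ G, (c v : M) * Y v = 0 → ∀ v ∈ G, c v = 0 := by
  classical
  have hc := c0_pos
  have hc1 := c0_le
  refine ⟨40 / c0, by positivity, fun k hk => ?_⟩
  have hk0 : (0 : ℝ) < k := by exact_mod_cast (by omega : 0 < k)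
  have hsk : 0 < √(k : ℝ) := Real.sqrt_pos.2 hk0
  refine ⟨by rw [indices_eq hk]; exact Finset.finite_toSet _, ncard_indices hk, fun y L hy hL => ?_, fun H hH =>
    ⟨fun r κ hκ S => ?_, fun F hF => ?_⟩⟩
  · have h1 : {u ∈ indices k | y ≤ mzv u ∧ mzv u ≤ Real.exp L * y} =
        (((AI k).filter fun w => Real.log y ≤ Real.log (mzv w) ∧ Real.log (mzv w) ≤ Real.log y + L : Finset (List ℕ)) :
          Set (List ℕ)) := by
      rw [indices_eq hk]
      ext w
      rw [Set.mem_ofPred_eq, Finset.mem_coe, Finset.mem_coe, Finset.mem_filter]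
      refine and_congr_right fun hw => ?_
      have hp := mzv_pos ((mem_indices hk w).2 hw).1
      rw [Real.log_le_log_iff hy hp, ← Real.log_exp L, ← Real.log_mul hy.ne' (Real.exp_pos L).ne',
        Real.log_le_log_iff hp (by positivity), Real.log_exp, mul_comm y]
    rw [h1, Set.ncard_coe_finset]
    refine (ball_mzv hk (Real.log y) L hL).trans ?_
    have h2 : (L / c0 + 1) ≤ 4 * (1 + L) / c0 := by
      rw [div_add_one hc.ne']
      exact div_le_div_of_nonneg_right (by linarith) hc.le
    calc (L / c0 + 1) * (10 / √(k : ℝ) * 2 ^ (k - 2)) ≤ (4 * (1 + L) / c0) * (10 / √(k : ℝ) * 2 ^ (k - 2)) :=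
          mul_le_mul_of_nonneg_right h2 (by positivity)
      _ = _ := by ring
  · have hκ2 : ∀ i, 2 ≤ κ i := fun i => hk.trans (hκ i)
    have hH' : (1 : ℝ) ≤ H := by exact_mod_cast hH
    have hlH : 0 ≤ Real.log H := Real.log_nonneg hH'
    set P : (Fin r → List ℕ) → Prop := fun u => HasRelation S H u ∨ SmallValue S H u with hP
    have h1 : {u : Fin r → List ℕ | (∀ i, u i ∈ indices (κ i)) ∧ P u} =
        (((Fintype.piFinset fun i : Fin r => AI (κ i)).filter P : Finset (Fin r → List ℕ)) : Set (Fin r → List ℕ)) := by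
      ext w
      simp only [Set.mem_ofPred_eq, Finset.mem_coe, Finset.mem_filter, Fintype.mem_piFinset, mem_indices (hκ2 _)]
    rw [h1, Set.ncard_coe_finset]
    have h2 := poly_relS (fun i : Fin r => AI (κ i)) mzv (fun i w hw => mzv_pos ((mem_indices (hκ2 i) w).2 hw).1) S H hH
      (40 / c0 * (1 + Real.log H) / √k) (by positivity) (fun i x => ball_rel k (κ i) hk (hκ i) H hH x) P (fun w hw hPw => by
        rcases hPw with hrel | hsmall
        · obtain ⟨M, i1, i2, Y, ⟨per, hper⟩, Q, hQ0, hQS, hQH, hQ⟩ := hrel
          refine ⟨Q, hQS, hQH, ?_⟩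
          obtain ⟨m, hm⟩ := Finset.nonempty_iff_ne_empty.2 (fun h => hQ0 (MvPolynomial.support_eq_empty.1 h))
          refine ⟨m, hm, ?_⟩
          have hadm : ∀ i, Admissible (w i) := fun i => ((mem_indices (hκ2 i) _).2 (hw i)).1
          have h5 : MvPolynomial.aeval (fun i => per (Y (w i))) Q = per (MvPolynomial.aeval (fun i => Y (w i)) Q) := by
            have h6 := MvPolynomial.map_aeval (fun i => Y (w i)) per.toRingHom Q
            rw [MvPolynomial.aeval_eq_eval₂Hom]
            have h7 : (algebraMap ℤ ℝ) = per.toRingHom.comp (algebraMap ℤ M) := RingHom.ext_int _ _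
            rw [h7]
            exact h6.symm
          rw [hQ, map_zero] at h5
          have h8 : (fun i => mzv (w i)) = fun i => per (Y (w i)) := by
            funext i
            exact (hper _ (hadm i)).symm
          rw [h8, h5, abs_zero]
          have h9 : 0 < ∏ i, mzv (w i) ^ m i := Finset.prod_pos fun i _ => pow_pos (mzv_pos (hadm i)) _
          linarith
        · exact hsmall)
    refine h2.trans (le_of_eq ?_)
    simp only [card_AI]
    push_cast
    ring
  · have hFf : F.Finite := (by rw [indices_eq hk]; exact Finset.finite_toSet _ : (indices k).Finite).subset hF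
    have h2 : hFf.toFinset ⊆ AI k := by
      intro w hw
      rw [Set.Finite.mem_toFinset] at hw
      exact (mem_indices hk w).1 (hF hw)
    obtain ⟨G, hG, hcard, hrel⟩ := dense_rel (AI k) hFf.toFinset h2 mzv (fun w hw => mzv_pos ((mem_indices hk w).2 hw).1) H hH
      (40 / c0 * (1 + Real.log H) / √k) (fun x => ball_rel k k hk le_rfl H hH x)
    have hGF : ∀ w ∈ G, w ∈ F := fun w hw => by
      have := hG hw
      rwa [Set.Finite.mem_toFinset] at this
    refine ⟨G, fun w hw => hGF w (Finset.mem_coe.1 hw), ?_, fun c hcH => ⟨hrel c hcH, ?_⟩⟩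
    · rw [Set.ncard_eq_toFinset_card F hFf]
      have h3 := mul_le_mul_of_nonneg_left hcard hsk.le
      refine h3.trans (le_of_eq ?_)
      rw [card_AI]
      push_cast
      field_simp
    · intro M i1 i2 Y hY hsum v hv
      obtain ⟨per, hper⟩ := hY
      by_contra hcv
      have h3 := hrel c hcH v hv hcv
      have hadm : ∀ w ∈ G, Admissible w := fun w hw => (hF (hGF w hw)).1
      have h4 : ∑ v ∈ G, (c v : ℝ) * mzv v = 0 := by
        have h5 := congrArg per hsum
        rw [map_sum, map_zero] at h5
        rw [← h5]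
        refine Finset.sum_congr rfl fun w hw => ?_
        rw [map_mul, map_intCast, hper w (hadm w hw)]
      rw [h4, abs_zero] at h3
      have h6 := mzv_pos (hadm v hv)
      linarith

end Pool.Agent.Results.MP_a57f33_nt.LogSeparation
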