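import Mathlib
import Pool.Agent.L5helper14.AW.Main
import Pool.Agent.L5helper83.AW.Small
import Pool.Agent.L5helper56.AW.Fam
import Pool.Agent.L5helper5.PM.SZ

/-!
# MP_a57f33_nt: all but a proportion `k ^ (-A)` of the tuples of indices satisfy no relation of height `k ^ A`, for every `A`

There are `2 ^ (k - 2)` admissible indices of weight `k ≥ 2`. Let `A`, `D`, `r` be natural numbers. There are constants `B`,
`K`, `C`, such that for `k ≥ 2`:

* every interval `[y, (1 + k ^ (-B)) y]` contains the values of at most `C k ^ (-A) 2 ^ (κ - 2)` admissible indices of weight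
  `κ ≥ k` (the exponent `A` is arbitrary; `AlmostAllIndices` and `LogSeparation` had the exponent `1 / 2`);
* for all but a proportion `C k ^ (-A)` of the `r`-tuples `(u_1, ..., u_r)` of admissible indices of given weights `≥ k`, the
  value of a given real polynomial `P` of degree `≤ D` in each variable at `(ζ(u_1), ..., ζ(u_r))` is at least `k ^ (-B)` times
  each of its terms;
* hence for all but a proportion `C (2 H + 1) ^ ((D + 1) ^ r) k ^ (-A)` of the `r`-tuples this holds for all integer polynomials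
  of degree `≤ D` in each variable and height `≤ H`, and the values `Y(u_1), ..., Y(u_r)` of a lift `Y` of the multiple zeta
  values (for example the motivic ones) satisfy no such relation (since `A` is arbitrary, `H` may be any power of `k`);
* if `k ≥ K`, every set of at least `2 ^ (k - 2) / k ^ A` admissible indices of weight `k` contains `k ^ A` indices, any `r` of
  which satisfy no polynomial relation of degree `≤ D` in each variable and height `≤ k ^ A`.

So all relations of this kind at these indices are consequences of the regularized double shuffle relations (there is none).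

Proof. Let `X_I`, `Y_I` be the blocks of Thue and Morse (`X_0 = 2 3`, `Y_0 = 3 2`, `X_{I+1} = X_I Y_I`, `Y_{I+1} = Y_I X_I`).
Exchanging `X_I` and `Y_I` in an index, with `j` letters behind the block (`j` large) and excess (weight minus depth) at least
`j ^ 6` in front of it, changes `log ζ` by `± (1 + o(1)) c j ^ (-I-1)` (`windowG`). The two ingredients are: the operator of
`X_I` minus the one of `Y_I` is an iterated commutator in the algebra of the summation operator `S` and the multiplication `θ`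
by `1 / n`, and every commutator gains a factor `θ` (library of helper45, written for the words with the letters 2, 3); and the
mass of the part of the series with a gap in the small summation variables is small (`gapG`), for arbitrary positive letters:
the sums `T(N)` over the upper variables `> N` satisfy `(N + 1 + e) T(N + 1) ≤ (N + 1) T(N)`, where `e` is the excess
(`decay`). A random index has such blocks at `c log k` different scales `j`, the effects of the smaller scales are dominated by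
the one of the largest scale, and the exchanges give orbits of size `2 ^ q`, `q = c I log k` (`few`).

Lemmas of the library by helper45 (operators, window lemma), helper39, helper85, helper15, helper59, helper79, helper30,
helper83, helper56.
-/

set_option autoImplicit false

namespace Pool.Agent.Results.MP_a57f33_nt.PolynomialScale

open Pool.Agent.L5helper14.AW
open Pool.Agent.L5helper5.PM (AI mem_AI card_AI PS card_PS mem_PS)

/-- the multiple zeta value of the list `l`, the first entry belongs to the largest summation variable -/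
noncomputable def mzv (l : List ℕ) : ℝ :=
  ∑' m : {m : Fin l.length → ℕ // StrictAnti m ∧ ∀ i, 0 < m i}, ∏ i, ((m.1 i : ℝ) ^ (l.get i))⁻¹

/-- admissible indices: the entries are positive and the first entry is at least two -/
def Admissible (u : List ℕ) : Prop := (∀ x ∈ u, 1 ≤ x) ∧ ∀ a t, u = a :: t → 2 ≤ a

/-- the admissible indices of weight `k` -/
def indices (k : ℕ) : Set (List ℕ) := {u | Admissible u ∧ u.sum = k}

/-- `Y` is a lift of the real multiple zeta values: a homomorphism maps `Y u` to the real number `ζ(u)`, for all admissible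
indices `u`; for example the motivic multiple zeta values -/
def Lift {M : Type} [CommRing M] [Algebra ℚ M] (Y : List ℕ → M) : Prop :=
  ∃ per : M →ₐ[ℚ] ℝ, ∀ u, Admissible u → per (Y u) = mzv u

/-- A nontrivial polynomial relation of degree at most `D` in each variable with integer coefficients of absolute value at
most `H` holds between the values of a lift at the indices `u_i`. -/
def HasRelation {r : ℕ} (D H : ℕ) (u : Fin r → List ℕ) : Prop :=
  ∃ (M : Type) (_ : CommRing M) (_ : Algebra ℚ M) (Y : List ℕ → M), Lift Y ∧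
    ∃ P : MvPolynomial (Fin r) ℤ, P ≠ 0 ∧ (∀ i, P.degreeOf i ≤ D) ∧ (∀ m, |P.coeff m| ≤ (H : ℤ)) ∧
      MvPolynomial.aeval (fun i => Y (u i)) P = 0

/-- The value of the real polynomial `P` at `(ζ(u_1), ..., ζ(u_r))` is smaller than `ε` times the absolute value of one of its
terms there. -/
def Small {r : ℕ} (ε : ℝ) (P : MvPolynomial (Fin r) ℝ) (u : Fin r → List ℕ) : Prop :=
  ∃ m : Fin r →₀ ℕ, |MvPolynomial.eval (fun i => mzv (u i)) P| < ε * (|P.coeff m| * ∏ i, mzv (u i) ^ m i)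

/-- `Small` for some polynomial of degree at most `D` in each variable with integer coefficients of absolute value at most
`H`. -/
def SmallValue {r : ℕ} (D H : ℕ) (ε : ℝ) (u : Fin r → List ℕ) : Prop :=
  ∃ P : MvPolynomial (Fin r) ℤ, (∀ i, P.degreeOf i ≤ D) ∧ (∀ m, |P.coeff m| ≤ (H : ℤ)) ∧
    Small ε (MvPolynomial.map (Int.castRingHom ℝ) P) u

lemma mzv_eq {l : List ℕ} (hl : Admissible l) : mzv l = Pool.Agent.H447R2.MZ.val l := by
  have h1 := Pool.Agent.H447R2.MZ.hasSum_val l.length l.get (by rw [List.ofFn_get]; exact hl)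
  rw [List.ofFn_get] at h1
  exact h1.tsum_eq

lemma mzv_pos {w : List ℕ} (h : Admissible w) : 0 < mzv w := by
  rw [mzv_eq h]
  exact val_pos h

lemma mem_indices {k : ℕ} (hk : 2 ≤ k) (u : List ℕ) : u ∈ indices k ↔ u ∈ AI k := (mem_AI hk u).symm

lemma indices_eq {k : ℕ} (hk : 2 ≤ k) : indices k = (AI k : Set (List ℕ)) := by
  ext u
  rw [mem_indices hk, Finset.mem_coe]

open Classical in
/-- the first part, with finsets -/
lemma few' (A : ℕ) : ∃ (B : ℕ) (C : ℝ), 0 < C ∧ ∀ k κ : ℕ, 2 ≤ k → k ≤ κ → ∀ y : ℝ, 0 < y →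
    (((AI κ).filter fun w : List ℕ => y ≤ mzv w ∧ mzv w ≤ (1 + 1 / (k : ℝ) ^ B) * y).card : ℝ) ≤
      C / (k : ℝ) ^ A * (AI κ).card := by
  obtain ⟨B, C, hC, h⟩ := few A
  refine ⟨B, C, hC, fun k κ hk hκ y hy => ?_⟩
  have h1 := h k κ hk hκ y hy
  rw [card_AI]
  push_cast
  refine le_trans (le_of_eq ?_) h1
  congr 2
  refine Finset.filter_congr fun u hu => ?_
  rw [mzv_eq ((mem_indices (hk.trans hκ) u).2 hu).1]

open Classical in
/-- the small values of a finite set of real polynomials -/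
lemma smallS (A D r : ℕ) : ∃ (B : ℕ) (C : ℝ), 0 < C ∧ ∀ (k : ℕ) (κ : Fin r → ℕ), 2 ≤ k → (∀ i, k ≤ κ i) →
    ∀ S : Finset (MvPolynomial (Fin r) ℝ), (∀ P ∈ S, ∀ i, P.degreeOf i ≤ D) →
      (((Fintype.piFinset fun i : Fin r => AI (κ i)).filter fun u => ∃ P ∈ S, Small (1 / (k : ℝ) ^ B) P u).card : ℝ) ≤
        S.card * (C / (k : ℝ) ^ A) * ∏ i, ((AI (κ i)).card : ℝ) := by
  obtain ⟨B, C, hC, h⟩ := few' A
  -- the radius `1 / (3 k ^ B)` and then the exponent of the final bound
  refine ⟨(B + 4) * (D * r), C * (D + 1) ^ r, by positivity, fun k κ hk hκ S hS => ?_⟩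
  have hk0 : (0 : ℝ) < k := by exact_mod_cast (by omega : 0 < k)
  have hk2 : (2 : ℝ) ≤ k := by exact_mod_cast hk
  set δ : ℝ := 1 / (3 * (k : ℝ) ^ B) with hδ
  have hkB : (1 : ℝ) ≤ (k : ℝ) ^ B := one_le_pow₀ (by linarith)
  have hδ0 : 0 < δ := by positivity
  have hδ1 : δ ≤ 1 / 3 := by
    rw [hδ]
    apply one_div_le_one_div_of_le (by norm_num)
    linarith
  have hδ3 : 3 * δ = 1 / (k : ℝ) ^ B := by rw [hδ]; field_simp
  have hone : ∀ P ∈ S, (((Fintype.piFinset fun i : Fin r => AI (κ i)).filter fun u =>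
      Small (1 / (k : ℝ) ^ ((B + 4) * (D * r))) P u).card : ℝ) ≤ C * (D + 1) ^ r / (k : ℝ) ^ A * ∏ i, ((AI (κ i)).card : ℝ) := by
    intro P hP
    have h1 := small_values r D (fun i => AI (κ i)) mzv
      (fun i w hw => mzv_pos ((mem_indices (hk.trans (hκ i)) w).2 hw).1) (C / (k : ℝ) ^ A) δ (by positivity) hδ0 hδ1
      (fun i y hy => by rw [hδ3]; exact h k (κ i) hk (hκ i) y hy) P (hS P hP)
    have h2 : (((Fintype.piFinset fun i : Fin r => AI (κ i)).filter fun u =>
        Small (1 / (k : ℝ) ^ ((B + 4) * (D * r))) P u).card : ℝ) ≤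
        (((Fintype.piFinset fun i : Fin r => AI (κ i)).filter fun w => ∃ m, |MvPolynomial.eval (fun i => mzv (w i)) P| <
        (δ / 3) ^ (D * r) * (|P.coeff m| * ∏ i, mzv (w i) ^ (m i))).card : ℝ) := by
      have h3 : ((Fintype.piFinset fun i : Fin r => AI (κ i)).filter fun u =>
          Small (1 / (k : ℝ) ^ ((B + 4) * (D * r))) P u) ⊆
          ((Fintype.piFinset fun i : Fin r => AI (κ i)).filter fun w => ∃ m, |MvPolynomial.eval (fun i => mzv (w i)) P| <
          (δ / 3) ^ (D * r) * (|P.coeff m| * ∏ i, mzv (w i) ^ (m i))) := by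
        intro u hu
        rw [Finset.mem_filter] at hu ⊢
        obtain ⟨h4, m, h5⟩ := hu
        refine ⟨h4, m, h5.trans_le ?_⟩
        rw [Fintype.mem_piFinset] at h4
        have h6 : 0 ≤ |P.coeff m| * ∏ i, mzv (u i) ^ (m i) :=
          mul_nonneg (abs_nonneg _) (Finset.prod_nonneg fun i _ =>
            pow_nonneg (mzv_pos ((mem_indices (hk.trans (hκ i)) _).2 (h4 i)).1).le _)
        refine mul_le_mul_of_nonneg_right ?_ h6
        rw [pow_mul, ← one_div_pow]
        refine pow_le_pow_left₀ (by positivity) ?_ _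
        have h7 : (9 : ℝ) ≤ (k : ℝ) ^ 4 := by
          calc (9 : ℝ) ≤ 2 ^ 4 := by norm_num
            _ ≤ (k : ℝ) ^ 4 := by gcongr
        rw [hδ, div_div, pow_add]
        apply one_div_le_one_div_of_le (by positivity)
        have h8 : 0 < (k : ℝ) ^ B := by positivity
        nlinarith
      exact_mod_cast Finset.card_le_card h3
    refine (h2.trans h1).trans (le_of_eq ?_)
    ring
  have hsub : ((Fintype.piFinset fun i : Fin r => AI (κ i)).filter fun u =>
      ∃ P ∈ S, Small (1 / (k : ℝ) ^ ((B + 4) * (D * r))) P u) ⊆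
      S.biUnion fun P => (Fintype.piFinset fun i : Fin r => AI (κ i)).filter fun u =>
        Small (1 / (k : ℝ) ^ ((B + 4) * (D * r))) P u := by
    intro u hu
    rw [Finset.mem_filter] at hu
    obtain ⟨h4, P, hP, h5⟩ := hu
    rw [Finset.mem_biUnion]
    exact ⟨P, hP, Finset.mem_filter.2 ⟨h4, h5⟩⟩
  have h9 := (Finset.card_le_card hsub).trans Finset.card_biUnion_le
  have h10 : (((Fintype.piFinset fun i : Fin r => AI (κ i)).filter fun u =>
      ∃ P ∈ S, Small (1 / (k : ℝ) ^ ((B + 4) * (D * r))) P u).card : ℝ) ≤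
      ∑ P ∈ S, (((Fintype.piFinset fun i : Fin r => AI (κ i)).filter fun u =>
        Small (1 / (k : ℝ) ^ ((B + 4) * (D * r))) P u).card : ℝ) := by exact_mod_cast h9
  refine h10.trans ((Finset.sum_le_card_nsmul _ _ _ hone).trans (le_of_eq ?_))
  rw [nsmul_eq_mul]
  ring

/-- a relation between motivic values gives a small value -/
lemma small_of_rel {r D H : ℕ} {u : Fin r → List ℕ} (hu : ∀ i, Admissible (u i)) {ε : ℝ} (hε : 0 < ε)
    (h : HasRelation D H u) : SmallValue D H ε u := by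
  obtain ⟨M, i1, i2, Y, ⟨per, hper⟩, P, hP0, hPD, hPH, hP⟩ := h
  refine ⟨P, hPD, hPH, ?_⟩
  obtain ⟨m, hm⟩ := Finset.nonempty_iff_ne_empty.2 (fun h => hP0 (MvPolynomial.support_eq_empty.1 h))
  refine ⟨m, ?_⟩
  have h5 : MvPolynomial.aeval (fun i => per (Y (u i))) P = per (MvPolynomial.aeval (fun i => Y (u i)) P) := by
    have h6 := MvPolynomial.map_aeval (fun i => Y (u i)) per.toRingHom P
    rw [MvPolynomial.aeval_eq_eval₂Hom]
    have h7 : (algebraMap ℤ ℝ) = per.toRingHom.comp (algebraMap ℤ M) := RingHom.ext_int _ _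
    rw [h7]
    exact h6.symm
  rw [hP, map_zero] at h5
  have h8 : (fun i => mzv (u i)) = fun i => per (Y (u i)) := by
    funext i
    exact (hper _ (hu i)).symm
  have h9 : MvPolynomial.eval (fun i => mzv (u i)) (MvPolynomial.map (Int.castRingHom ℝ) P) = 0 := by
    rw [MvPolynomial.eval_map, ← h5, h8, MvPolynomial.aeval_def]
    rfl
  rw [h9, abs_zero]
  have h10 : 0 < ∏ i, mzv (u i) ^ m i := Finset.prod_pos fun i _ => pow_pos (mzv_pos (hu i)) _
  have h11 : 0 < |(MvPolynomial.map (Int.castRingHom ℝ) P).coeff m| := by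
    rw [abs_pos, MvPolynomial.coeff_map]
    have := MvPolynomial.mem_support_iff.1 hm
    simpa using this
  positivity

open Classical in
/-- the tuples with small values of integer polynomials -/
lemma smallZ (A D r : ℕ) : ∃ (B : ℕ) (C : ℝ), 0 < C ∧ ∀ (k : ℕ) (κ : Fin r → ℕ), 2 ≤ k → (∀ i, k ≤ κ i) → ∀ H : ℕ,
      (((Fintype.piFinset fun i : Fin r => AI (κ i)).filter fun u => SmallValue D H (1 / (k : ℝ) ^ B) u).card : ℝ) ≤
        (2 * H + 1) ^ (D + 1) ^ r * (C / (k : ℝ) ^ A) * ∏ i, ((AI (κ i)).card : ℝ) := by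
  obtain ⟨B, C, hC, h⟩ := smallS A D r
  refine ⟨B, C, hC, fun k κ hk hκ H => ?_⟩
  set S : Finset (MvPolynomial (Fin r) ℝ) :=
      ((PS r D H).filter fun P => ∀ i, P.degreeOf i ≤ D).image (MvPolynomial.map (Int.castRingHom ℝ)) with hS
  have hSc : (S.card : ℝ) ≤ (2 * H + 1) ^ (D + 1) ^ r := by
    have h1 : S.card ≤ (2 * H + 1) ^ (D + 1) ^ r :=
      (Finset.card_image_le.trans (Finset.card_filter_le _ _)).trans (card_PS r D H)
    exact_mod_cast h1
  have h2 := h k κ hk hκ S (fun P hP i => by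
    rw [hS, Finset.mem_image] at hP
    obtain ⟨Q, hQ, rfl⟩ := hP
    rw [Finset.mem_filter] at hQ
    rw [MvPolynomial.degreeOf_le_iff]
    intro m hm
    exact MvPolynomial.degreeOf_le_iff.1 (hQ.2 i) m (MvPolynomial.support_map_subset _ _ hm))
  have h3 : (((Fintype.piFinset fun i : Fin r => AI (κ i)).filter fun u => SmallValue D H (1 / (k : ℝ) ^ B) u).card : ℝ) ≤
      (((Fintype.piFinset fun i : Fin r => AI (κ i)).filter fun u => ∃ P ∈ S, Small (1 / (k : ℝ) ^ B) P u).card : ℝ) := by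
    have h4 : ((Fintype.piFinset fun i : Fin r => AI (κ i)).filter fun u => SmallValue D H (1 / (k : ℝ) ^ B) u) ⊆
        ((Fintype.piFinset fun i : Fin r => AI (κ i)).filter fun u => ∃ P ∈ S, Small (1 / (k : ℝ) ^ B) P u) := by
      intro u hu
      rw [Finset.mem_filter] at hu ⊢
      obtain ⟨h5, P, h6, h7, h8⟩ := hu
      refine ⟨h5, _, ?_, h8⟩
      rw [hS, Finset.mem_image]
      exact ⟨P, by rw [Finset.mem_filter]; exact ⟨mem_PS P h6 h7, h6⟩, rfl⟩
    exact_mod_cast Finset.card_le_card h4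
  refine (h3.trans h2).trans ?_
  have h5 : 0 ≤ C / (k : ℝ) ^ A := by positivity
  have h6 : (0 : ℝ) ≤ ∏ i, ((AI (κ i)).card : ℝ) := Finset.prod_nonneg fun i _ => Nat.cast_nonneg _
  exact mul_le_mul_of_nonneg_right (mul_le_mul_of_nonneg_right hSc h5) h6

lemma exp_beats (E : ℕ) (C : ℝ) : ∃ K : ℕ, ∀ k : ℕ, K ≤ k → C * (k : ℝ) ^ E < 2 ^ (k - 2) := by
  have h1 := tendsto_pow_const_mul_const_pow_of_abs_lt_one E (show |(1 / 2 : ℝ)| < 1 by rw [abs_of_pos (by norm_num)]; norm_num)
  have h2 := h1.const_mul (4 * |C|)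
  rw [mul_zero] at h2
  obtain ⟨K, hK⟩ := Filter.eventually_atTop.1 (h2.eventually (gt_mem_nhds (show (0 : ℝ) < 1 by norm_num)))
  refine ⟨max K 2, fun k hk => ?_⟩
  have h3 := hK k (le_of_max_le_left hk)
  have h4 : 2 ≤ k := le_of_max_le_right hk
  have h5 : (2 : ℝ) ^ k = 4 * 2 ^ (k - 2) := by
    have : k = (k - 2) + 2 := by omega
    conv_lhs => rw [this]
    rw [pow_add]; norm_num; ring
  have h6 : (0 : ℝ) < 2 ^ (k - 2) := by positivity
  have h7 : (1 / 2 : ℝ) ^ k * 2 ^ k = 1 := by rw [← mul_pow]; norm_num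
  have h8 : 4 * |C| * (k : ℝ) ^ E < 2 ^ k := by
    calc 4 * |C| * (k : ℝ) ^ E = (4 * |C| * ((k : ℝ) ^ E * (1 / 2) ^ k)) * 2 ^ k := by
          rw [show (4 * |C| * ((k : ℝ) ^ E * (1 / 2) ^ k)) * 2 ^ k = 4 * |C| * (k : ℝ) ^ E * ((1 / 2) ^ k * 2 ^ k) by ring, h7]
          ring
      _ < 1 * 2 ^ k := mul_lt_mul_of_pos_right h3 (by positivity)
      _ = 2 ^ k := one_mul _
  have h9 : C * (k : ℝ) ^ E ≤ |C| * (k : ℝ) ^ E := mul_le_mul_of_nonneg_right (le_abs_self C) (by positivity)
  linarith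

open Classical in
/-- dense sets contain large families without relations between `r` members -/
lemma family (A D r : ℕ) : ∃ (K B : ℕ), ∀ k : ℕ, K ≤ k → ∀ F : Finset (List ℕ), F ⊆ AI k →
    (2 : ℝ) ^ (k - 2) ≤ (k : ℝ) ^ A * F.card → ∃ G ⊆ F, G.card = k ^ A ∧ ∀ u : Fin r → List ℕ, Function.Injective u →
      (∀ i, u i ∈ G) → ¬ SmallValue D (k ^ A) (1 / (k : ℝ) ^ B) u := by
  set E : ℕ := (D + 1) ^ r with hE
  obtain ⟨B, C, hC, h⟩ := smallZ (2 * A * r + A * E + 1) D r
  -- `m ^ 2 / |F| ≤ k ^ (3 A) / 2 ^ (k - 2) < 1 / 2`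
  obtain ⟨K1, hK1⟩ := exp_beats (3 * A) 2
  refine ⟨max (max K1 2) (⌈2 * 3 ^ E * C⌉₊ + 1), B, fun k hk F hF hFc => ?_⟩
  have hkK1 : K1 ≤ k := (le_max_left _ _).trans ((le_max_left _ _).trans hk)
  have hk2 : 2 ≤ k := (le_max_right _ _).trans ((le_max_left _ _).trans hk)
  have hkC : ⌈2 * 3 ^ E * C⌉₊ + 1 ≤ k := (le_max_right _ _).trans hk
  have hk0 : (0 : ℝ) < k := by exact_mod_cast (by omega : 0 < k)
  have hk1 : (1 : ℝ) ≤ k := by exact_mod_cast (by omega : 1 ≤ k)
  have hkA : (0 : ℝ) < (k : ℝ) ^ A := by positivity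
  have hP0 : (0 : ℝ) < 2 ^ (k - 2) := by positivity
  have hF0 : (0 : ℝ) < F.card := by
    by_contra hcon
    push Not at hcon
    have : (k : ℝ) ^ A * F.card ≤ 0 := mul_nonpos_of_nonneg_of_nonpos hkA.le hcon
    linarith
  have hFne : F.Nonempty := Finset.card_pos.1 (by exact_mod_cast hF0)
  have hWc : ((AI k).card : ℝ) = 2 ^ (k - 2) := by rw [card_AI]; push_cast; rfl
  -- the proportion
  set η : ℝ := (2 * (k ^ A : ℕ) + 1) ^ E * (C / (k : ℝ) ^ (2 * A * r + A * E + 1)) with hη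
  have h1 := h k (fun _ => k) hk2 (fun _ => le_rfl) (k ^ A)
  rw [Finset.prod_const, Finset.card_univ, Fintype.card_fin] at h1
  obtain ⟨G, hG, hGc, hGu⟩ := sparse_family (AI k) F hF hFne r (k ^ A) (fun u => SmallValue D (k ^ A) (1 / (k : ℝ) ^ B) u) η
    h1 (by
      rw [hWc]
      push_cast
      have hr1 : (2 : ℝ) ^ (k - 2) / F.card ≤ (k : ℝ) ^ A := by
        rw [div_le_iff₀ hF0]; exact hFc
      have hr0 : (0 : ℝ) ≤ 2 ^ (k - 2) / F.card := by positivity
      have t1 : ((k : ℝ) ^ A) ^ 2 / F.card < 1 / 2 := by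
        have h2 := hK1 k hkK1
        rw [div_lt_iff₀ hF0]
        have h3 : (k : ℝ) ^ (3 * A) = ((k : ℝ) ^ A) ^ 2 * (k : ℝ) ^ A := by rw [← pow_mul, ← pow_add]; congr 1; ring
        rw [h3] at h2
        by_contra hcon
        push Not at hcon
        have h4 : 1 / 2 * (F.card : ℝ) * (k : ℝ) ^ A ≤ ((k : ℝ) ^ A) ^ 2 * (k : ℝ) ^ A :=
          mul_le_mul_of_nonneg_right hcon hkA.le
        nlinarith
      have t2 : ((k : ℝ) ^ A) ^ r * η * (2 ^ (k - 2) / (F.card : ℝ)) ^ r ≤ 1 / 2 := by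
        have h2 : (2 ^ (k - 2) / (F.card : ℝ)) ^ r ≤ ((k : ℝ) ^ A) ^ r := pow_le_pow_left₀ hr0 hr1 r
        have hη0 : 0 ≤ η := by positivity
        have h3 : (2 * ((k ^ A : ℕ) : ℝ) + 1) ^ E ≤ (3 * (k : ℝ) ^ A) ^ E := by
          refine pow_le_pow_left₀ (by positivity) ?_ E
          push_cast
          have : (1 : ℝ) ≤ (k : ℝ) ^ A := one_le_pow₀ hk1
          linarith
        have h4 : η ≤ (3 * (k : ℝ) ^ A) ^ E * (C / (k : ℝ) ^ (2 * A * r + A * E + 1)) :=
          mul_le_mul_of_nonneg_right h3 (by positivity)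
        have h5 : 2 * 3 ^ E * C ≤ k := by
          have h6 : 2 * 3 ^ E * C ≤ (⌈2 * 3 ^ E * C⌉₊ : ℝ) := Nat.le_ceil _
          have h7 : ((⌈2 * 3 ^ E * C⌉₊ : ℕ) : ℝ) ≤ k := by exact_mod_cast (by omega : ⌈2 * 3 ^ E * C⌉₊ ≤ k)
          linarith
        calc ((k : ℝ) ^ A) ^ r * η * (2 ^ (k - 2) / (F.card : ℝ)) ^ r
            ≤ ((k : ℝ) ^ A) ^ r * ((3 * (k : ℝ) ^ A) ^ E * (C / (k : ℝ) ^ (2 * A * r + A * E + 1))) * ((k : ℝ) ^ A) ^ r := by
              gcongr
          _ = 3 ^ E * C * ((((k : ℝ) ^ A) ^ r * ((k : ℝ) ^ A) ^ E * ((k : ℝ) ^ A) ^ r) / (k : ℝ) ^ (2 * A * r + A * E + 1)) := by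
              rw [mul_pow]
              ring
          _ = 3 ^ E * C / k := by
              have e1 : ((k : ℝ) ^ A) ^ r * ((k : ℝ) ^ A) ^ E * ((k : ℝ) ^ A) ^ r = (k : ℝ) ^ (2 * A * r + A * E) := by
                rw [← pow_mul, ← pow_mul, ← pow_add, ← pow_add]
                congr 1
                ring
              rw [e1, pow_succ]
              field_simp
          _ ≤ 1 / 2 := by
              rw [div_le_iff₀ hk0]
              linarith
      linarith)
  exact ⟨G, hG, hGc, hGu⟩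

lemma Small_mono {r : ℕ} {ε ε' : ℝ} (h : ε ≤ ε') {P : MvPolynomial (Fin r) ℝ} {u : Fin r → List ℕ}
    (hu : ∀ i, Admissible (u i)) (hs : Small ε P u) : Small ε' P u := by
  obtain ⟨m, hm⟩ := hs
  refine ⟨m, hm.trans_le (mul_le_mul_of_nonneg_right h ?_)⟩
  exact mul_nonneg (abs_nonneg _) (Finset.prod_nonneg fun i _ => pow_nonneg (mzv_pos (hu i)).le _)

lemma SmallValue_mono {r D H : ℕ} {ε ε' : ℝ} (h : ε ≤ ε') {u : Fin r → List ℕ}
    (hu : ∀ i, Admissible (u i)) (hs : SmallValue D H ε u) : SmallValue D H ε' u := by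
  obtain ⟨P, h1, h2, h3⟩ := hs
  exact ⟨P, h1, h2, Small_mono h hu h3⟩

lemma eps_mono {k B B' : ℕ} (hk : 2 ≤ k) (h : B ≤ B') : 1 / (k : ℝ) ^ B' ≤ 1 / (k : ℝ) ^ B := by
  have hk1 : (1 : ℝ) ≤ k := by exact_mod_cast (by omega : 1 ≤ k)
  exact one_div_le_one_div_of_le (by positivity) (pow_le_pow_right₀ hk1 h)

/-- **Theorem.** -/
theorem result (A D r : ℕ) : ∃ (B K : ℕ) (C : ℝ), 0 < C ∧ ∀ k : ℕ, 2 ≤ k →
    (indices k).Finite ∧ (indices k).ncard = 2 ^ (k - 2) ∧
    -- few values in a short interval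
    (∀ κ : ℕ, k ≤ κ → ∀ y : ℝ, 0 < y →
      ({u ∈ indices κ | y ≤ mzv u ∧ mzv u ≤ (1 + 1 / (k : ℝ) ^ B) * y}.ncard : ℝ) ≤ C / (k : ℝ) ^ A * 2 ^ (κ - 2)) ∧
    (∀ κ : Fin r → ℕ, (∀ i, k ≤ κ i) →
      -- small values of given real polynomials
      (∀ S : Finset (MvPolynomial (Fin r) ℝ), (∀ P ∈ S, ∀ i, P.degreeOf i ≤ D) →
        ({u : Fin r → List ℕ | (∀ i, u i ∈ indices (κ i)) ∧ ∃ P ∈ S, Small (1 / (k : ℝ) ^ B) P u}.ncard : ℝ) ≤
          S.card * (C / (k : ℝ) ^ A) * ∏ i, 2 ^ (κ i - 2)) ∧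
      -- relations with integer coefficients, motivic relations
      ∀ H : ℕ, ({u : Fin r → List ℕ | (∀ i, u i ∈ indices (κ i)) ∧
          (HasRelation D H u ∨ SmallValue D H (1 / (k : ℝ) ^ B) u)}.ncard : ℝ) ≤
        (2 * H + 1) ^ (D + 1) ^ r * (C / (k : ℝ) ^ A) * ∏ i, 2 ^ (κ i - 2)) ∧
    -- large families without relations in dense sets
    (K ≤ k → ∀ F ⊆ indices k, (2 : ℝ) ^ (k - 2) ≤ (k : ℝ) ^ A * F.ncard →
      ∃ G : Finset (List ℕ), (G : Set (List ℕ)) ⊆ F ∧ G.card = k ^ A ∧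
        ∀ u : Fin r → List ℕ, Function.Injective u → (∀ i, u i ∈ G) →
          ¬ HasRelation D (k ^ A) u ∧ ¬ SmallValue D (k ^ A) (1 / (k : ℝ) ^ B) u) := by
  classical
  obtain ⟨B1, C1, hC1, h1⟩ := few' A
  obtain ⟨B2, C2, hC2, h2⟩ := smallS A D r
  obtain ⟨B3, C3, hC3, h3⟩ := smallZ A D r
  obtain ⟨K, B4, h4⟩ := family A D r
  refine ⟨B1 + B2 + B3 + B4, K, C1 + C2 + C3, by positivity, fun k hk => ?_⟩
  have hk0 : (0 : ℝ) < k := by exact_mod_cast (by omega : 0 < k)
  have hfin : ∀ κ : ℕ, k ≤ κ → (indices κ).Finite := fun κ hκ => by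
    rw [indices_eq (hk.trans hκ)]
    exact Finset.finite_toSet _
  have hC1' : C1 / (k : ℝ) ^ A ≤ (C1 + C2 + C3) / (k : ℝ) ^ A := div_le_div_of_nonneg_right (by linarith) (by positivity)
  have hC2' : C2 / (k : ℝ) ^ A ≤ (C1 + C2 + C3) / (k : ℝ) ^ A := div_le_div_of_nonneg_right (by linarith) (by positivity)
  have hC3' : C3 / (k : ℝ) ^ A ≤ (C1 + C2 + C3) / (k : ℝ) ^ A := div_le_div_of_nonneg_right (by linarith) (by positivity)
  refine ⟨hfin k le_rfl, by rw [indices_eq hk, Set.ncard_coe_finset, card_AI], fun κ hκ y hy => ?_, fun κ hκ => ⟨fun S hS => ?_,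
    fun H => ?_⟩, fun hK F hF hFc => ?_⟩
  · have e1 : {u ∈ indices κ | y ≤ mzv u ∧ mzv u ≤ (1 + 1 / (k : ℝ) ^ (B1 + B2 + B3 + B4)) * y} ⊆
        (((AI κ).filter fun w : List ℕ => y ≤ mzv w ∧ mzv w ≤ (1 + 1 / (k : ℝ) ^ B1) * y : Finset (List ℕ)) : Set (List ℕ)) := by
      rintro u ⟨g1, g2, g3⟩
      rw [Finset.mem_coe, Finset.mem_filter]
      refine ⟨(mem_indices (hk.trans hκ) u).1 g1, g2, g3.trans (mul_le_mul_of_nonneg_right ?_ hy.le)⟩
      have := eps_mono (k := k) (B := B1) (B' := B1 + B2 + B3 + B4) hk (by omega)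
      linarith
    have e2 := Set.ncard_le_ncard e1 (Finset.finite_toSet _)
    rw [Set.ncard_coe_finset] at e2
    have e3 := h1 k κ hk hκ y hy
    rw [card_AI] at e3
    push_cast at e3
    refine le_trans (by exact_mod_cast e2) (e3.trans ?_)
    exact mul_le_mul_of_nonneg_right hC1' (by positivity)
  · have e1 : {u : Fin r → List ℕ | (∀ i, u i ∈ indices (κ i)) ∧ ∃ P ∈ S, Small (1 / (k : ℝ) ^ (B1 + B2 + B3 + B4)) P u} ⊆
        (((Fintype.piFinset fun i : Fin r => AI (κ i)).filter fun u => ∃ P ∈ S, Small (1 / (k : ℝ) ^ B2) P u :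
          Finset (Fin r → List ℕ)) : Set (Fin r → List ℕ)) := by
      rintro u ⟨g1, P, g2, g3⟩
      rw [Finset.mem_coe, Finset.mem_filter, Fintype.mem_piFinset]
      exact ⟨fun i => (mem_indices (hk.trans (hκ i)) _).1 (g1 i), P, g2,
        Small_mono (eps_mono hk (by omega)) (fun i => (g1 i).1) g3⟩
    have e2 := Set.ncard_le_ncard e1 (Finset.finite_toSet _)
    rw [Set.ncard_coe_finset] at e2
    have e3 := h2 k κ hk hκ S hS
    simp only [card_AI] at e3
    push_cast at e3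
    refine le_trans (by exact_mod_cast e2) (e3.trans ?_)
    refine mul_le_mul_of_nonneg_right (mul_le_mul_of_nonneg_left hC2' (Nat.cast_nonneg _)) (by positivity)
  · have e1 : {u : Fin r → List ℕ | (∀ i, u i ∈ indices (κ i)) ∧
          (HasRelation D H u ∨ SmallValue D H (1 / (k : ℝ) ^ (B1 + B2 + B3 + B4)) u)} ⊆
        (((Fintype.piFinset fun i : Fin r => AI (κ i)).filter fun u => SmallValue D H (1 / (k : ℝ) ^ B3) u :
          Finset (Fin r → List ℕ)) : Set (Fin r → List ℕ)) := by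
      rintro u ⟨g1, g2⟩
      rw [Finset.mem_coe, Finset.mem_filter, Fintype.mem_piFinset]
      refine ⟨fun i => (mem_indices (hk.trans (hκ i)) _).1 (g1 i), ?_⟩
      rcases g2 with g2 | g2
      · exact small_of_rel (fun i => (g1 i).1) (by positivity) g2
      · exact SmallValue_mono (eps_mono hk (by omega)) (fun i => (g1 i).1) g2
    have e2 := Set.ncard_le_ncard e1 (Finset.finite_toSet _)
    rw [Set.ncard_coe_finset] at e2
    have e3 := h3 k κ hk hκ H
    simp only [card_AI] at e3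
    push_cast at e3
    refine le_trans (by exact_mod_cast e2) (e3.trans ?_)
    refine mul_le_mul_of_nonneg_right (mul_le_mul_of_nonneg_left hC3' (by positivity)) (by positivity)
  · have hFf : F.Finite := (hfin k le_rfl).subset hF
    have e1 : hFf.toFinset ⊆ AI k := by
      intro w hw
      rw [Set.Finite.mem_toFinset] at hw
      exact (mem_indices hk w).1 (hF hw)
    obtain ⟨G, hG, hGc, hGu⟩ := h4 k hK hFf.toFinset e1 (by rw [← Set.ncard_eq_toFinset_card F hFf]; exact hFc)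
    have hGF : ∀ w ∈ G, w ∈ F := fun w hw => by
      have := hG hw
      rwa [Set.Finite.mem_toFinset] at this
    refine ⟨G, fun w hw => hGF w (Finset.mem_coe.1 hw), hGc, fun u hu hi => ?_⟩
    have hadm : ∀ i, Admissible (u i) := fun i => (hF (hGF _ (hi i))).1
    have e2 := hGu u hu hi
    have e3 : ¬ SmallValue D (k ^ A) (1 / (k : ℝ) ^ (B1 + B2 + B3 + B4)) u := fun h =>
      e2 (SmallValue_mono (eps_mono hk (by omega)) hadm h)
    exact ⟨fun h => e2 (small_of_rel hadm (by positivity) h), e3⟩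

end Pool.Agent.Results.MP_a57f33_nt.PolynomialScale
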